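import Pool.Agent.Q109.PS.Core

set_option autoImplicit false
set_option linter.unusedSectionVars false

/-! The metric for a group-invariant consistent path system. -/

namespace Pool.Agent.Q109.PS

open Finset

/-- metrics on `V` -/
structure IsMetric {V : Type} (ρ : V → V → ℝ) : Prop where
  nonneg : ∀ x y, 0 ≤ ρ x y
  zero : ∀ x y, ρ x y = 0 ↔ x = y
  symm : ∀ x y, ρ x y = ρ y x
  tri : ∀ x y z, ρ x z ≤ ρ x y + ρ y z

theorem det {G : Type} [Group G] [DecidableEq G] (D : Finset G) (hD : D.card ≤ 2)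
    (hinv : ∀ a ∈ D, a⁻¹ ∈ D) (j : ℕ) (y z : ℕ → G) (hy : ∀ i < j, y i ∈ D) (hz : ∀ i < j, z i ∈ D)
    (ry : ∀ i, i + 1 < j → y (i + 1) ≠ (y i)⁻¹) (rz : ∀ i, i + 1 < j → z (i + 1) ≠ (z i)⁻¹)
    (h0 : 0 < j → y 0 = z 0) : ∀ i < j, y i = z i := by
  intro i
  induction i with
  | zero => intro hj; exact h0 hj
  | succ i ih =>
    intro hj
    have hi := ih (by omega)
    by_contra hne
    have h1 := ry i hj
    have h2 := rz i hj
    rw [← hi] at h2
    have hsub : ({y (i + 1), z (i + 1), (y i)⁻¹} : Finset G) ⊆ D := by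
      intro a ha
      simp only [mem_insert, mem_singleton] at ha
      rcases ha with rfl | rfl | rfl
      · exact hy _ hj
      · exact hz _ hj
      · exact hinv _ (hy _ (by omega))
    have hc : ({y (i + 1), z (i + 1), (y i)⁻¹} : Finset G).card = 3 := by
      rw [card_insert_of_notMem, card_insert_of_notMem, card_singleton]
      · simpa using h2
      · simp only [mem_insert, mem_singleton, not_or]
        exact ⟨hne, h1⟩
    have := card_le_card hsub
    omega

namespace Sys

variable {G : Type} [Group G] (Y : Sys G) [Fintype G] [DecidableEq G]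

theorem len_lt (g : G) : Y.len g + 1 ≤ Fintype.card G := by
  have : ((range (Y.len g + 1)).image (Y.pt g)).card = Y.len g + 1 := by
    rw [card_image_of_injOn, card_range]
    intro i hi j hj h
    rw [mem_coe, mem_range] at hi hj
    exact Y.inj g i j (by omega) (by omega) h
  rw [← this]
  exact card_le_univ _

/-- there is a canonical path of length `k` with dominant steps only -/
def Q (D : Finset G) (k : ℕ) : Prop := ∃ g, Y.len g = k ∧ ∀ i < k, Y.st g i ∈ D

/-- the longest such path -/
theorem exists_max (D : Finset G) : ∃ m, Y.Q D m ∧ ∀ k, Y.Q D k → k ≤ m := by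
  classical
  have h0 : Y.Q D 0 := ⟨1, Y.len_one, fun i hi => absurd hi (Nat.not_lt_zero _)⟩
  have hb : ∀ k, Y.Q D k → k ≤ Fintype.card G := by
    rintro k ⟨g, hg, _⟩
    have := Y.len_lt g
    omega
  refine ⟨Nat.findGreatest (Y.Q D) (Fintype.card G), Nat.findGreatest_spec (Nat.zero_le _) h0, ?_⟩
  intro k hk
  exact Nat.le_findGreatest (hb k hk) hk

theorem run_le {D : Finset G} {m : ℕ} (hm : ∀ k, Y.Q D k → k ≤ m) (g : G) {i j : ℕ}
    (hij : i ≤ j) (hj : j ≤ Y.len g) (h : ∀ k, i ≤ k → k < j → Y.st g k ∈ D) : j - i ≤ m := by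
  apply hm
  refine ⟨(Y.pt g i)⁻¹ * Y.pt g j, (Y.fwd g i j hij hj).1, ?_⟩
  intro k hk
  rw [Y.st_fwd hij hj hk]
  exact h _ (by omega) (by omega)

theorem runs {D : Finset G} {m : ℕ} (hm : ∀ k, Y.Q D k → k ≤ m) (g : G) :
    ∀ t ≤ Y.len g, ∃ r ≤ t, (∀ k, t - r ≤ k → k < t → Y.st g k ∈ D) ∧
      t ≤ ((range t).filter fun i => Y.st g i ∉ D).card * (m + 1) + r := by
  intro t
  induction t with
  | zero => intro _; exact ⟨0, le_rfl, fun k _ hk => absurd hk (Nat.not_lt_zero _), by simp⟩
  | succ t ih =>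
    intro ht
    obtain ⟨r, hr, h1, h2⟩ := ih (by omega)
    by_cases hD : Y.st g t ∈ D
    · refine ⟨r + 1, by omega, ?_, ?_⟩
      · intro k hk1 hk2
        rcases eq_or_lt_of_le (Nat.le_of_lt_succ hk2) with rfl | h
        · exact hD
        · exact h1 k (by omega) h
      · rw [range_add_one, filter_insert, if_neg (not_not.2 hD)]
        omega
    · refine ⟨0, Nat.zero_le _, fun k hk1 hk2 => by omega, ?_⟩
      rw [range_add_one, filter_insert, if_pos hD, card_insert_of_notMem (by simp)]
      have h3 := Y.run_le hm g (i := t - r) (j := t) (by omega) (by omega) h1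
      have h4 : r ≤ m := by omega
      nlinarith

theorem card_dom {D : Finset G} {m : ℕ} (hm : ∀ k, Y.Q D k → k ≤ m) (g : G) :
    ((range (Y.len g)).filter fun i => Y.st g i ∈ D).card ≤
      m * (((range (Y.len g)).filter fun i => Y.st g i ∉ D).card + 1) := by
  obtain ⟨r, hr, h1, h2⟩ := Y.runs hm g (Y.len g) le_rfl
  have h3 := Y.run_le hm g (i := Y.len g - r) (j := Y.len g) (by omega) le_rfl h1
  have h4 : r ≤ m := by omega
  have h5 := card_filter_add_card_filter_not (s := range (Y.len g)) (fun i => Y.st g i ∈ D)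
  rw [card_range] at h5
  nlinarith

theorem pt_eq_of_st {g : G} {y : ℕ → G} {v : ℕ → G} {j : ℕ} (hj : j ≤ Y.len g)
    (h : ∀ i < j, Y.st g i = y i) (hv : ∀ i < j, v (i + 1) = v i * y i) :
    ∀ i ≤ j, Y.pt g i = (v 0)⁻¹ * v i := by
  intro i
  induction i with
  | zero => intro _; rw [Y.pt_zero]; group
  | succ i ih =>
    intro hi
    rw [Y.pt_succ, ih (by omega), h i (by omega), hv i (by omega), mul_assoc]

/-- reduced words in the dominant steps, shorter than the longest run, are canonical -/
theorem good {D : Finset G} (hD : D.card ≤ 2) (hinv : ∀ a ∈ D, a⁻¹ ∈ D) {m : ℕ} (hQ : Y.Q D m)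
    {j : ℕ} (hj : j + 1 ≤ m) (y : ℕ → G) (hy : ∀ i < j, y i ∈ D)
    (ry : ∀ i, i + 1 < j → y (i + 1) ≠ (y i)⁻¹) : ∃ g, Y.len g = j ∧ ∀ i < j, Y.st g i = y i := by
  rcases Nat.eq_zero_or_pos j with rfl | hj0
  · exact ⟨1, Y.len_one, fun i hi => absurd hi (Nat.not_lt_zero _)⟩
  obtain ⟨g, hg, hs⟩ := hQ
  have rx : ∀ i, i + 1 < m → Y.st g (i + 1) ≠ (Y.st g i)⁻¹ := fun i hi => Y.no_back (by omega)
  have h2l := (Y.fwd g 0 j (Nat.zero_le _) (by omega)).1
  have h2s : ∀ i < j, Y.st ((Y.pt g 0)⁻¹ * Y.pt g j) i = Y.st g i := by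
    intro i hi
    rw [Y.st_fwd (Nat.zero_le _) (by omega) (by omega), Nat.zero_add]
  rw [Nat.sub_zero] at h2l
  by_cases c1 : y 0 = Y.st g 0
  · refine ⟨(Y.pt g 0)⁻¹ * Y.pt g j, h2l, ?_⟩
    intro i hi
    rw [h2s i hi]
    exact (det D hD hinv j y (Y.st g) hy (fun i hi => hs i (by omega)) ry
      (fun i hi => rx i (by omega)) (fun _ => c1) i hi).symm
  by_cases c2 : y 0 = Y.st g 1
  · refine ⟨(Y.pt g 1)⁻¹ * Y.pt g (j + 1), ?_, ?_⟩
    · rw [(Y.fwd g 1 (j + 1) (by omega) (by omega)).1]; omega
    · intro i hi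
      rw [Y.st_fwd (by omega) (by omega) (by omega)]
      exact (det D hD hinv j y (fun i => Y.st g (1 + i)) hy (fun i hi => hs _ (by omega)) ry
        (fun i hi => by
          have := rx (1 + i) (by omega)
          rwa [show 1 + i + 1 = 1 + (i + 1) by omega] at this) (fun _ => c2) i hi).symm
  -- all steps are equal
  have e1 : Y.st g 1 = Y.st g 0 := by
    by_contra hne
    have hsub : ({y 0, Y.st g 0, Y.st g 1} : Finset G) ⊆ D := by
      intro a ha
      simp only [mem_insert, mem_singleton] at ha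
      rcases ha with rfl | rfl | rfl
      · exact hy _ hj0
      · exact hs _ (by omega)
      · exact hs _ (by omega)
    have hc : ({y 0, Y.st g 0, Y.st g 1} : Finset G).card = 3 := by
      rw [card_insert_of_notMem, card_insert_of_notMem, card_singleton]
      · simpa using fun h : Y.st g 0 = Y.st g 1 => hne h.symm
      · simp only [mem_insert, mem_singleton, not_or]
        exact ⟨c1, c2⟩
    have := card_le_card hsub
    omega
  have e2 : Y.st g 0 ≠ (Y.st g 0)⁻¹ := by
    have := rx 0 (by omega)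
    rwa [Nat.zero_add, e1] at this
  have e3 : y 0 = (Y.st g 0)⁻¹ := by
    by_contra hne
    have hsub : ({y 0, Y.st g 0, (Y.st g 0)⁻¹} : Finset G) ⊆ D := by
      intro a ha
      simp only [mem_insert, mem_singleton] at ha
      rcases ha with rfl | rfl | rfl
      · exact hy _ hj0
      · exact hs _ (by omega)
      · exact hinv _ (hs _ (by omega))
    have hc : ({y 0, Y.st g 0, (Y.st g 0)⁻¹} : Finset G).card = 3 := by
      rw [card_insert_of_notMem, card_insert_of_notMem, card_singleton]
      · simpa using e2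
      · simp only [mem_insert, mem_singleton, not_or]
        exact ⟨c1, hne⟩
    have := card_le_card hsub
    omega
  have e4 : ∀ i < m, Y.st g i = Y.st g 0 := by
    apply det D hD hinv m (Y.st g) (fun _ => Y.st g 0) (fun i hi => hs i hi)
      (fun i hi => hs 0 (by omega)) (fun i hi => rx i hi) (fun i hi => e2) (fun _ => rfl)
  refine ⟨((Y.pt g 0)⁻¹ * Y.pt g j)⁻¹, by rw [Y.len_inv, h2l], ?_⟩
  have hst : ∀ i < j, Y.st ((Y.pt g 0)⁻¹ * Y.pt g j)⁻¹ i = (Y.st g 0)⁻¹ := by
    intro i hi
    rw [Y.st_inv (by omega), h2l, h2s _ (by omega), e4 _ (by omega)]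
  intro i hi
  rw [hst i hi]
  exact (det D hD hinv j y (fun _ => (Y.st g 0)⁻¹) hy (fun i hi => hinv _ (hs 0 (by omega))) ry
    (fun i hi => by rw [inv_inv]; exact e2.symm) (fun _ => e3) i hi).symm

end Sys

/-- the Cayley graph of the dominant steps -/
def cayD {G : Type} [Group G] (D : Finset G) (hinv : ∀ a ∈ D, a⁻¹ ∈ D) : SimpleGraph G where
  Adj x y := x ≠ y ∧ x⁻¹ * y ∈ D
  symm := ⟨fun x y h => ⟨h.1.symm, by
    have := hinv _ h.2
    rwa [mul_inv_rev, inv_inv] at this⟩⟩
  loopless := ⟨fun x h => h.1 rfl⟩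

open Classical in
/-- the metric -/
noncomputable def rho {G : Type} (Γ : SimpleGraph G) (lam : ℝ) (x y : G) : ℝ :=
  if Γ.Reachable x y then min 1 (lam * Γ.dist x y) else 1

theorem rho_metric {G : Type} (Γ : SimpleGraph G) {lam : ℝ} (h0 : 0 < lam) :
    IsMetric (rho Γ lam) := by
  have nonneg : ∀ x y, 0 ≤ rho Γ lam x y := by
    intro x y
    unfold rho
    split_ifs
    · exact le_min zero_le_one (by positivity)
    · exact zero_le_one
  have le_one : ∀ x y, rho Γ lam x y ≤ 1 := by
    intro x y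
    unfold rho
    split_ifs
    · exact min_le_left _ _
    · exact le_rfl
  refine ⟨nonneg, ?_, ?_, ?_⟩
  · intro x y
    constructor
    · intro h
      unfold rho at h
      split_ifs at h with hr
      · rcases min_choice 1 (lam * (Γ.dist x y : ℝ)) with hc | hc
        · rw [hc] at h; norm_num at h
        · rw [hc] at h
          rcases mul_eq_zero.1 h with h | h
          · linarith
          · exact hr.dist_eq_zero_iff.1 (by exact_mod_cast h)
      · norm_num at h
    · rintro rfl
      unfold rho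
      rw [if_pos (SimpleGraph.Reachable.refl x), SimpleGraph.dist_self]
      simp
  · intro x y
    unfold rho
    rw [SimpleGraph.dist_comm]
    by_cases hr : Γ.Reachable x y
    · rw [if_pos hr, if_pos hr.symm]
    · rw [if_neg hr, if_neg (fun h => hr h.symm)]
  · intro x y z
    by_cases h1 : Γ.Reachable x y
    · by_cases h2 : Γ.Reachable y z
      · have h3 := h1.trans h2
        have hd : (Γ.dist x z : ℝ) ≤ Γ.dist x y + Γ.dist y z := by
          exact_mod_cast h1.dist_triangle_left z
        unfold rho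
        rw [if_pos h1, if_pos h2, if_pos h3]
        rcases min_choice 1 (lam * (Γ.dist x y : ℝ)) with hc | hc
        · rw [hc]
          have : (0:ℝ) ≤ min 1 (lam * (Γ.dist y z : ℝ)) := le_min zero_le_one (by positivity)
          have := min_le_left 1 (lam * (Γ.dist x z : ℝ))
          linarith
        rcases min_choice 1 (lam * (Γ.dist y z : ℝ)) with hc' | hc'
        · rw [hc']
          have : (0:ℝ) ≤ min 1 (lam * (Γ.dist x y : ℝ)) := le_min zero_le_one (by positivity)
          have := min_le_left 1 (lam * (Γ.dist x z : ℝ))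
          linarith
        rw [hc, hc']
        have := min_le_right 1 (lam * (Γ.dist x z : ℝ))
        nlinarith
      · have h4 : rho Γ lam y z = 1 := by unfold rho; rw [if_neg h2]
        have := le_one x z
        have := nonneg x y
        linarith
    · have h4 : rho Γ lam x y = 1 := by unfold rho; rw [if_neg h1]
      have := le_one x z
      have := nonneg y z
      linarith

theorem rho_le_one {G : Type} (Γ : SimpleGraph G) (lam : ℝ) (x y : G) : rho Γ lam x y ≤ 1 := by
  unfold rho
  split_ifs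
  · exact min_le_left _ _
  · exact le_rfl

theorem rho_step {G : Type} [Group G] {D : Finset G} (hinv : ∀ a ∈ D, a⁻¹ ∈ D) {lam : ℝ}
    (h0 : 0 < lam) (x y : G) (h : x⁻¹ * y ∈ D) : rho (cayD D hinv) lam x y ≤ lam := by
  by_cases hxy : x = y
  · rw [((rho_metric _ h0).zero x y).2 hxy]; exact h0.le
  · have ha : (cayD D hinv).Adj x y := ⟨hxy, h⟩
    unfold rho
    rw [if_pos ha.reachable, SimpleGraph.dist_eq_one_iff_adj.2 ha]
    simp

end Pool.Agent.Q109.PS
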