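import Mathlib

set_option autoImplicit false
set_option linter.unusedSectionVars false

/-! Canonical words of a group-invariant consistent path system: counting lemma, dominant steps. -/

namespace Pool.Agent.Q109.PS

open Finset

/-- canonical paths from `1`: `pt g 0 = 1`, ..., `pt g (len g) = g` -/
structure Sys (G : Type) [Group G] where
  len : G → ℕ
  pt : G → ℕ → G
  pt_zero : ∀ g, pt g 0 = 1
  pt_len : ∀ g, pt g (len g) = g
  inj : ∀ g i j, i ≤ len g → j ≤ len g → pt g i = pt g j → i = j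
  fwd : ∀ g i j, i ≤ j → j ≤ len g → len ((pt g i)⁻¹ * pt g j) = j - i ∧
    ∀ k, k ≤ j - i → pt ((pt g i)⁻¹ * pt g j) k = (pt g i)⁻¹ * pt g (i + k)
  inv : ∀ g, len g⁻¹ = len g ∧ ∀ k, k ≤ len g → pt g⁻¹ k = g⁻¹ * pt g (len g - k)

namespace Sys

variable {G : Type} [Group G] (Y : Sys G)

/-- the step of the canonical path to `g` after `i` steps -/
def st (g : G) (i : ℕ) : G := (Y.pt g i)⁻¹ * Y.pt g (i + 1)

theorem pt_succ (g : G) (i : ℕ) : Y.pt g (i + 1) = Y.pt g i * Y.st g i := by
  simp [st]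

theorem len_one : Y.len 1 = 0 := by
  have h := Y.inj 1 0 (Y.len 1) (Nat.zero_le _) le_rfl (by rw [Y.pt_zero, Y.pt_len])
  exact h.symm

theorem st_fwd {g : G} {i j k : ℕ} (hij : i ≤ j) (hj : j ≤ Y.len g) (hk : k < j - i) :
    Y.st ((Y.pt g i)⁻¹ * Y.pt g j) k = Y.st g (i + k) := by
  obtain ⟨_, h⟩ := Y.fwd g i j hij hj
  unfold st
  rw [h k (by omega), h (k + 1) (by omega)]
  rw [show i + (k + 1) = i + k + 1 by omega]
  group

theorem len_inv (g : G) : Y.len g⁻¹ = Y.len g := (Y.inv g).1

theorem st_inv {g : G} {k : ℕ} (hk : k < Y.len g) :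
    Y.st g⁻¹ k = (Y.st g (Y.len g - 1 - k))⁻¹ := by
  obtain ⟨_, h⟩ := Y.inv g
  unfold st
  rw [h k (by omega), h (k + 1) (by omega)]
  rw [show Y.len g - (k + 1) = Y.len g - 1 - k by omega,
    show Y.len g - k = Y.len g - 1 - k + 1 by omega]
  group

/-- the last step -/
theorem last_fwd {g : G} {i j : ℕ} (hij : i < j) (hj : j ≤ Y.len g) :
    Y.len ((Y.pt g i)⁻¹ * Y.pt g j) = j - i ∧
    Y.st ((Y.pt g i)⁻¹ * Y.pt g j) (j - i - 1) = Y.st g (j - 1) := by
  refine ⟨(Y.fwd g i j hij.le hj).1, ?_⟩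
  rw [Y.st_fwd hij.le hj (by omega)]
  congr 1
  omega

theorem last_bwd {g : G} {i j : ℕ} (hij : i < j) (hj : j ≤ Y.len g) :
    Y.len ((Y.pt g j)⁻¹ * Y.pt g i) = j - i ∧
    Y.st ((Y.pt g j)⁻¹ * Y.pt g i) (j - i - 1) = (Y.st g i)⁻¹ := by
  have e : (Y.pt g j)⁻¹ * Y.pt g i = ((Y.pt g i)⁻¹ * Y.pt g j)⁻¹ := by group
  have hl := (Y.fwd g i j hij.le hj).1
  rw [e]
  refine ⟨by rw [Y.len_inv, hl], ?_⟩
  rw [Y.st_inv (by omega), hl, show j - i - 1 - (j - i - 1) = 0 by omega,
    Y.st_fwd hij.le hj (by omega)]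
  rfl

/-- no backtracking -/
theorem no_back {g : G} {i : ℕ} (hi : i + 2 ≤ Y.len g) : Y.st g (i + 1) ≠ (Y.st g i)⁻¹ := by
  intro h
  have h1 : Y.pt g (i + 2) = Y.pt g i := by
    rw [show i + 2 = i + 1 + 1 by omega, Y.pt_succ, Y.pt_succ, h]; group
  have := Y.inj g (i + 2) i hi (by omega) h1
  omega

variable [Fintype G] [DecidableEq G]

/-- number of steps `a` plus number of steps `a⁻¹` -/
def T (a g : G) : ℕ :=
  ((range (Y.len g)).filter fun j => Y.st g j = a).card +
  ((range (Y.len g)).filter fun j => Y.st g j = a⁻¹).card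

theorem T_inv (a g : G) : Y.T a⁻¹ g = Y.T a g := by
  unfold T; rw [inv_inv, add_comm]

theorem T_le (a g : G) : Y.T a g ≤ Y.len g + 1 := by
  set X := (range (Y.len g)).filter fun j => Y.st g j = a
  set Z := ((range (Y.len g)).filter fun j => Y.st g j = a⁻¹).image (· + 1)
  have hZ : Z.card = ((range (Y.len g)).filter fun j => Y.st g j = a⁻¹).card :=
    card_image_of_injective _ (add_left_injective 1)
  have hd : Disjoint X Z := by
    rw [Finset.disjoint_left]
    intro j hj hj'
    rw [mem_image] at hj'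
    obtain ⟨i, hi, rfl⟩ := hj'
    rw [mem_filter, mem_range] at hi hj
    apply Y.no_back (g := g) (i := i) (by omega)
    rw [hj.2, hi.2, inv_inv]
  have hsub : X ∪ Z ⊆ range (Y.len g + 1) := by
    intro j hj
    rw [mem_union] at hj
    rw [mem_range]
    rcases hj with hj | hj
    · rw [mem_filter, mem_range] at hj; omega
    · rw [mem_image] at hj
      obtain ⟨i, hi, rfl⟩ := hj
      rw [mem_filter, mem_range] at hi; omega
  have := card_le_card hsub
  rw [card_union_of_disjoint hd, card_range, hZ] at this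
  exact this

/-- the counting lemma -/
theorem count (g g' : G) :
    (Y.len g + 1) * (Y.len g' + 1) ≤ Fintype.card G + ∑ i ∈ range (Y.len g), Y.T (Y.st g i) g' := by
  let V := range (Y.len g + 1) ×ˢ range (Y.len g' + 1)
  let D : Finset (ℕ × ℕ) := ((range (Y.len g) ×ˢ range (Y.len g')).filter fun x => Y.st g' x.2 = Y.st g x.1).image
    fun x => (x.1 + 1, x.2 + 1)
  let A : Finset (ℕ × ℕ) := ((range (Y.len g) ×ˢ range (Y.len g')).filter
    fun x => Y.st g' x.2 = (Y.st g x.1)⁻¹).image fun x => (x.1 + 1, x.2)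
  have hVc : V.card = (Y.len g + 1) * (Y.len g' + 1) := by simp [V]
  have hM : ((V \ (D ∪ A)).image fun x => Y.pt g x.1 * (Y.pt g' x.2)⁻¹).card = (V \ (D ∪ A)).card := by
    apply card_image_of_injOn
    -- key
    have key : ∀ i j i' j', (i, j) ∈ V \ (D ∪ A) → (i', j') ∈ V \ (D ∪ A) → i' < i →
        Y.pt g i * (Y.pt g' j)⁻¹ = Y.pt g i' * (Y.pt g' j')⁻¹ → False := by
      intro i j i' j' h h' hlt he
      rw [mem_sdiff, mem_product, mem_range, mem_range] at h h'
      obtain ⟨⟨hi, hj⟩, hn⟩ := h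
      obtain ⟨⟨hi', hj'⟩, _⟩ := h'
      simp only at hi hj hi' hj'
      have e : (Y.pt g i')⁻¹ * Y.pt g i = (Y.pt g' j')⁻¹ * Y.pt g' j := by
        have : Y.pt g i = Y.pt g i' * (Y.pt g' j')⁻¹ * Y.pt g' j := by
          rw [← he]; group
        rw [this]; group
      obtain ⟨l1, s1⟩ := Y.last_fwd hlt (show i ≤ Y.len g by omega)
      rcases lt_trichotomy j' j with hjj | hjj | hjj
      · obtain ⟨l2, s2⟩ := Y.last_fwd hjj (show j ≤ Y.len g' by omega)
        rw [← e] at l2 s2
        have hll : i - i' = j - j' := by rw [← l1, ← l2]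
        rw [← hll] at s2
        have hs : Y.st g' (j - 1) = Y.st g (i - 1) := by rw [← s1, ← s2]
        apply hn
        rw [mem_union]; left
        rw [mem_image]
        refine ⟨(i - 1, j - 1), ?_, ?_⟩
        · rw [mem_filter, mem_product, mem_range, mem_range]
          refine ⟨⟨?_, ?_⟩, hs⟩ <;> simp only <;> omega
        · simp only [Prod.mk.injEq]; omega
      · subst hjj
        rw [inv_mul_cancel] at e
        have : Y.pt g i = Y.pt g i' := by
          rw [inv_mul_eq_one] at e; exact e.symm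
        have := Y.inj g i i' (by omega) (by omega) this
        omega
      · obtain ⟨l2, s2⟩ := Y.last_bwd hjj (show j' ≤ Y.len g' by omega)
        rw [← e] at l2 s2
        have hll : i - i' = j' - j := by rw [← l1, ← l2]
        rw [← hll] at s2
        have hs : Y.st g' j = (Y.st g (i - 1))⁻¹ := by
          rw [← s1, s2, inv_inv]
        apply hn
        rw [mem_union]; right
        rw [mem_image]
        have b1 : i - 1 < Y.len g := by omega
        have b2 : j < Y.len g' := by omega
        refine ⟨(i - 1, j), ?_, ?_⟩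
        · rw [mem_filter, mem_product, mem_range, mem_range]
          exact ⟨⟨b1, b2⟩, hs⟩
        · exact Prod.ext (by show i - 1 + 1 = i; omega) rfl
    rintro ⟨i, j⟩ h ⟨i', j'⟩ h' he
    simp only at he
    have h := h
    rw [mem_coe] at h h'
    rcases lt_trichotomy i i' with hlt | heq | hlt
    · exact (key i' j' i j h' h hlt he.symm).elim
    · subst heq
      have : Y.pt g' j = Y.pt g' j' := by
        have := mul_left_cancel he
        exact inv_injective this
      rw [mem_sdiff, mem_product, mem_range, mem_range] at h h'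
      obtain ⟨⟨_, hj⟩, _⟩ := h
      obtain ⟨⟨_, hj'⟩, _⟩ := h'
      simp only at hj hj'
      rw [Y.inj g' j j' (by omega) (by omega) this]
    · exact (key i j i' j' h h' hlt he).elim
  have h1 : (V \ (D ∪ A)).card ≤ Fintype.card G := by
    rw [← hM]; exact card_le_univ _
  have h2 : V.card ≤ (V \ (D ∪ A)).card + (D.card + A.card) := by
    have h3 : V ⊆ (V \ (D ∪ A)) ∪ (D ∪ A) := by
      intro x hx
      by_cases hx' : x ∈ D ∪ A
      · exact mem_union_right _ hx'
      · exact mem_union_left _ (mem_sdiff.2 ⟨hx, hx'⟩)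
    calc V.card ≤ ((V \ (D ∪ A)) ∪ (D ∪ A)).card := card_le_card h3
      _ ≤ (V \ (D ∪ A)).card + (D ∪ A).card := card_union_le _ _
      _ ≤ _ := by gcongr; exact card_union_le _ _
  have h4 : D.card + A.card ≤ ∑ i ∈ range (Y.len g), Y.T (Y.st g i) g' := by
    have hD : D.card ≤ ∑ i ∈ range (Y.len g), ((range (Y.len g')).filter fun j => Y.st g' j = Y.st g i).card := by
      refine le_trans card_image_le ?_
      rw [Finset.card_filter, Finset.sum_product]
      apply le_of_eq
      apply Finset.sum_congr rfl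
      intro i _
      rw [Finset.card_filter]
    have hA : A.card ≤ ∑ i ∈ range (Y.len g),
        ((range (Y.len g')).filter fun j => Y.st g' j = (Y.st g i)⁻¹).card := by
      refine le_trans card_image_le ?_
      rw [Finset.card_filter, Finset.sum_product]
      apply le_of_eq
      apply Finset.sum_congr rfl
      intro i _
      rw [Finset.card_filter]
    calc D.card + A.card ≤ _ := add_le_add hD hA
      _ = _ := by rw [← Finset.sum_add_distrib]; rfl
  rw [hVc] at h2
  omega

/-- the dominant steps with respect to a long path -/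
def Dom (g₀ : G) : Finset G := univ.filter fun a => 2 * (Y.len g₀ + 1) < 3 * Y.T a g₀

theorem mem_Dom {g₀ a : G} : a ∈ Y.Dom g₀ ↔ 2 * (Y.len g₀ + 1) < 3 * Y.T a g₀ := by
  simp [Dom]

theorem Dom_inv {g₀ a : G} (h : a ∈ Y.Dom g₀) : a⁻¹ ∈ Y.Dom g₀ := by
  rw [mem_Dom, Y.T_inv]; exact (Y.mem_Dom).1 h

/-- few non-dominant steps -/
theorem nonDom (g₀ g : G) :
    ((range (Y.len g)).filter fun i => Y.st g i ∉ Y.Dom g₀).card * (Y.len g₀ + 1) ≤
      3 * Fintype.card G := by
  have h := Y.count g g₀
  have h1 : ∑ i ∈ range (Y.len g), (3 * Y.T (Y.st g i) g₀) +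
      ((range (Y.len g)).filter fun i => Y.st g i ∉ Y.Dom g₀).card * (Y.len g₀ + 1) ≤
      ∑ _i ∈ range (Y.len g), (3 * (Y.len g₀ + 1)) := by
    rw [Finset.card_filter, Finset.sum_mul, ← Finset.sum_add_distrib]
    apply Finset.sum_le_sum
    intro i _
    by_cases hi : Y.st g i ∈ Y.Dom g₀
    · rw [if_neg (not_not.2 hi)]
      have := Y.T_le (Y.st g i) g₀
      omega
    · rw [if_pos hi]
      rw [Y.mem_Dom] at hi
      omega
  rw [← Finset.mul_sum, Finset.sum_const, card_range, smul_eq_mul] at h1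
  nlinarith

theorem Dom_card (g₀ : G) : (Y.Dom g₀).card ≤ 2 := by
  by_contra hc
  have hc' : 3 ≤ (Y.Dom g₀).card := by omega
  obtain ⟨D, hD, hD3⟩ := Finset.exists_subset_card_eq hc'
  have h1 : ∑ a ∈ D, ((range (Y.len g₀)).filter fun j => Y.st g₀ j = a).card ≤ Y.len g₀ := by
    have : (D.biUnion fun a => (range (Y.len g₀)).filter fun j => Y.st g₀ j = a).card ≤ Y.len g₀ := by
      calc _ ≤ (range (Y.len g₀)).card := card_le_card (by
            intro j hj
            rw [mem_biUnion] at hj
            obtain ⟨a, _, hj⟩ := hj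
            exact (mem_filter.1 hj).1)
        _ = _ := card_range _
    rw [card_biUnion] at this
    · exact this
    · intro a _ b _ hab
      rw [Function.onFun, Finset.disjoint_left]
      intro j hj hj'
      exact hab (((mem_filter.1 hj).2).symm.trans (mem_filter.1 hj').2)
  have h2 : ∑ a ∈ D, ((range (Y.len g₀)).filter fun j => Y.st g₀ j = a⁻¹).card ≤ Y.len g₀ := by
    have : (D.biUnion fun a => (range (Y.len g₀)).filter fun j => Y.st g₀ j = a⁻¹).card
        ≤ Y.len g₀ := by
      calc _ ≤ (range (Y.len g₀)).card := card_le_card (by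
            intro j hj
            rw [mem_biUnion] at hj
            obtain ⟨a, _, hj⟩ := hj
            exact (mem_filter.1 hj).1)
        _ = _ := card_range _
    rw [card_biUnion] at this
    · exact this
    · intro a _ b _ hab
      rw [Function.onFun, Finset.disjoint_left]
      intro j hj hj'
      exact hab (inv_injective (((mem_filter.1 hj).2).symm.trans (mem_filter.1 hj').2))
  have h3 : ∑ a ∈ D, (2 * (Y.len g₀ + 1)) < ∑ a ∈ D, 3 * Y.T a g₀ := by
    apply Finset.sum_lt_sum_of_nonempty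
    · rw [← Finset.card_pos]; omega
    · intro a ha
      exact (Y.mem_Dom).1 (hD ha)
  rw [Finset.sum_const, hD3, ← Finset.mul_sum] at h3
  have h4 : ∑ a ∈ D, Y.T a g₀ ≤ Y.len g₀ + Y.len g₀ := by
    unfold T
    rw [Finset.sum_add_distrib]
    exact add_le_add h1 h2
  simp only [smul_eq_mul] at h3
  omega

end Sys

end Pool.Agent.Q109.PS
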