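import Pool.Agent.Q109.PS.Bound

set_option autoImplicit false
set_option linter.unusedSectionVars false

/-! The bound `14 √|G|`. -/

namespace Pool.Agent.Q109.PS

open Finset

namespace Sys

variable {G : Type} [Group G] (Y : Sys G) [Fintype G] [DecidableEq G]

/-- close pairs have a canonical path of dominant steps -/
theorem close {D : Finset G} (hD : D.card ≤ 2) (hinv : ∀ a ∈ D, a⁻¹ ∈ D) {m : ℕ} (hQ : Y.Q D m)
    (x y : G) (hr : (cayD D hinv).Reachable x y) (hj : (cayD D hinv).dist x y + 1 ≤ m) :
    Y.len (x⁻¹ * y) = (cayD D hinv).dist x y ∧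
      ∀ i < (cayD D hinv).dist x y, Y.st (x⁻¹ * y) i ∈ D := by
  obtain ⟨p, hp⟩ := hr.exists_walk_length_eq_dist
  have hpath : p.IsPath := p.isPath_of_length_eq_dist hp
  have hadj : ∀ i < p.length, (p.getVert i)⁻¹ * p.getVert (i + 1) ∈ D := fun i hi =>
    (p.adj_getVert_succ hi).2
  obtain ⟨g, hg, hs⟩ := Y.good hD hinv hQ (j := (cayD D hinv).dist x y) hj
    (fun i => (p.getVert i)⁻¹ * p.getVert (i + 1)) (fun i hi => hadj i (by omega))
    (fun i hi h => by
      have h1 : p.getVert (i + 1 + 1) = p.getVert i := by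
        rw [mul_inv_rev, inv_inv] at h
        exact mul_left_cancel h
      have := hpath.getVert_injOn (by simp; omega) (by simp; omega) h1
      omega)
  have hv := Y.pt_eq_of_st (g := g) (y := fun i => (p.getVert i)⁻¹ * p.getVert (i + 1))
    (v := p.getVert) (j := (cayD D hinv).dist x y) (by omega) hs (fun i _ => by group)
    ((cayD D hinv).dist x y) le_rfl
  have hgx : g = x⁻¹ * y := by
    rw [← hg, Y.pt_len, hg, SimpleGraph.Walk.getVert_zero, ← hp, SimpleGraph.Walk.getVert_length]
      at hv
    exact hv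
  subst hgx
  refine ⟨hg, ?_⟩
  intro i hi
  rw [hs i hi]
  exact hadj i (by omega)

/-- the length of the translated canonical path is at most the weight -/
theorem cost_le {D : Finset G} (hinv : ∀ a ∈ D, a⁻¹ ∈ D) {lam : ℝ} (h0 : 0 < lam) (x g : G) :
    ∑ i ∈ range (Y.len g), rho (cayD D hinv) lam (x * Y.pt g i) (x * Y.pt g (i + 1)) ≤
      lam * (((range (Y.len g)).filter fun i => Y.st g i ∈ D).card : ℝ) +
        (((range (Y.len g)).filter fun i => Y.st g i ∉ D).card : ℝ) := by
  have h1 : ∀ i ∈ range (Y.len g),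
      rho (cayD D hinv) lam (x * Y.pt g i) (x * Y.pt g (i + 1)) ≤
        lam * (if Y.st g i ∈ D then 1 else 0) + (if Y.st g i ∉ D then 1 else 0) := by
    intro i _
    by_cases hi : Y.st g i ∈ D
    · rw [if_pos hi, if_neg (not_not.2 hi), mul_one, add_zero]
      apply rho_step hinv h0
      have : (x * Y.pt g i)⁻¹ * (x * Y.pt g (i + 1)) = Y.st g i := by unfold st; group
      rw [this]; exact hi
    · rw [if_neg hi, if_pos hi, mul_zero, zero_add]
      exact rho_le_one _ _ _ _
  refine le_trans (Finset.sum_le_sum h1) (le_of_eq ?_)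
  rw [Finset.sum_add_distrib, ← Finset.mul_sum, Finset.sum_boole, Finset.sum_boole]

theorem main : ∃ ρ : G → G → ℝ, IsMetric ρ ∧ ∀ x g,
    ∑ i ∈ range (Y.len g), ρ (x * Y.pt g i) (x * Y.pt g (i + 1)) ≤
      14 * Real.sqrt (Fintype.card G) * ρ x (x * g) := by
  classical
  set R : ℝ := Real.sqrt (Fintype.card G) with hR
  have hn1 : (1 : ℝ) ≤ Fintype.card G := by exact_mod_cast Fintype.card_pos
  have hR1 : 1 ≤ R := by rw [hR]; exact Real.one_le_sqrt.2 hn1
  have hRR : R * R = Fintype.card G := Real.mul_self_sqrt (by positivity)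
  -- a longest canonical path
  obtain ⟨g₀, hg₀⟩ : ∃ g₀ : G, ∀ g, Y.len g ≤ Y.len g₀ := by
    obtain ⟨g₀, _, h⟩ := Finset.exists_max_image (univ : Finset G) Y.len ⟨1, mem_univ _⟩
    exact ⟨g₀, fun g => h g (mem_univ _)⟩
  by_cases hshort : (Y.len g₀ + 1 : ℝ) ≤ R
  · refine ⟨fun x y => if x = y then 0 else 1, ⟨?_, ?_, ?_, ?_⟩, ?_⟩
    · intro x y; by_cases h : x = y <;> simp [h]
    · intro x y; by_cases h : x = y <;> simp [h]
    · intro x y; simp only [eq_comm]
    · intro x y z
      by_cases h1 : x = y
      · subst h1; simp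
      · by_cases h2 : x = z
        · subst h2; simp only [if_true]; split_ifs <;> norm_num
        · simp only [h1, h2, if_false]; split_ifs <;> norm_num
    · intro x g
      by_cases hg : g = 1
      · subst hg; rw [Y.len_one]; simp
      · have h1 : x ≠ x * g := fun h => hg (by simpa using h)
        have h2 : ∑ i ∈ range (Y.len g), (if x * Y.pt g i = x * Y.pt g (i + 1) then (0:ℝ) else 1) ≤
            ∑ _i ∈ range (Y.len g), (1:ℝ) := by
          apply Finset.sum_le_sum
          intro i _
          split_ifs <;> norm_num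
        rw [Finset.sum_const, card_range, nsmul_eq_mul, mul_one] at h2
        simp only [h1, if_false]
        have h3 : (Y.len g : ℝ) ≤ Y.len g₀ := by exact_mod_cast hg₀ g
        linarith
  push Not at hshort
  set D := Y.Dom g₀ with hDdef
  have hinv : ∀ a ∈ D, a⁻¹ ∈ D := fun a ha => Y.Dom_inv ha
  have hDc : D.card ≤ 2 := Y.Dom_card g₀
  obtain ⟨m, hQ, hm⟩ := Y.exists_max D
  -- non-dominant steps
  have hnon : ∀ g, ((((range (Y.len g)).filter fun i => Y.st g i ∉ D).card : ℕ) : ℝ) ≤ 3 * R := by
    intro g
    have h := Y.nonDom g₀ g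
    have h' : ((((range (Y.len g)).filter fun i => Y.st g i ∉ D).card : ℕ) : ℝ) *
        (Y.len g₀ + 1) ≤ 3 * Fintype.card G := by exact_mod_cast h
    set N : ℝ := ((((range (Y.len g)).filter fun i => Y.st g i ∉ D).card : ℕ) : ℝ)
    have hN : 0 ≤ N := by positivity
    by_contra hc
    push Not at hc
    have : N * R ≤ 3 * (R * R) := by
      calc N * R ≤ N * (Y.len g₀ + 1) := by gcongr
        _ ≤ 3 * Fintype.card G := h'
        _ = 3 * (R * R) := by rw [hRR]
    nlinarith
  set K : ℝ := min (m : ℝ) R with hK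
  have hK0 : 0 ≤ K := le_min (by positivity) (by linarith)
  set lam : ℝ := 1 / (K + 1) with hlam
  have hlam0 : 0 < lam := by positivity
  have hcost : ∀ g, lam * (((range (Y.len g)).filter fun i => Y.st g i ∈ D).card : ℝ) +
        (((range (Y.len g)).filter fun i => Y.st g i ∉ D).card : ℝ) ≤ 7 * R := by
    intro g
    have h1 := hnon g
    rcases le_total (m : ℝ) R with hmR | hmR
    · have hKm : K = m := min_eq_left hmR
      have h2 : ((((range (Y.len g)).filter fun i => Y.st g i ∈ D).card : ℕ) : ℝ) ≤
          m * (((range (Y.len g)).filter fun i => Y.st g i ∉ D).card + 1) := by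
        exact_mod_cast Y.card_dom hm g
      have h3 : lam * (((range (Y.len g)).filter fun i => Y.st g i ∈ D).card : ℝ) ≤
          ((range (Y.len g)).filter fun i => Y.st g i ∉ D).card + 1 := by
        rw [hlam, hKm, one_div, inv_mul_le_iff₀ (by positivity)]
        refine le_trans h2 ?_
        have : (0:ℝ) ≤ ((range (Y.len g)).filter fun i => Y.st g i ∉ D).card + 1 := by positivity
        nlinarith
      linarith
    · have hKm : K = R := min_eq_right hmR
      have h2 : ((((range (Y.len g)).filter fun i => Y.st g i ∈ D).card : ℕ) : ℝ) ≤ R * R := by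
        rw [hRR]
        have h3 : ((range (Y.len g)).filter fun i => Y.st g i ∈ D).card ≤ Y.len g := by
          calc _ ≤ (range (Y.len g)).card := card_filter_le _ _
            _ = _ := card_range _
        have h4 := Y.len_lt g
        have h5 : ((range (Y.len g)).filter fun i => Y.st g i ∈ D).card ≤ Fintype.card G := by omega
        exact_mod_cast h5
      have h3 : lam * (((range (Y.len g)).filter fun i => Y.st g i ∈ D).card : ℝ) ≤ R := by
        rw [hlam, hKm, one_div, inv_mul_le_iff₀ (by positivity)]
        nlinarith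
      linarith
  refine ⟨rho (cayD D hinv) lam, rho_metric _ hlam0, ?_⟩
  intro x g
  have hc := Y.cost_le hinv hlam0 x g
  by_cases hbig : 1 / 2 ≤ rho (cayD D hinv) lam x (x * g)
  · have h1 := hcost g
    nlinarith
  push Not at hbig
  have hreach : (cayD D hinv).Reachable x (x * g) := by
    by_contra h
    unfold rho at hbig
    rw [if_neg h] at hbig
    norm_num at hbig
  have hval : rho (cayD D hinv) lam x (x * g) = lam * (cayD D hinv).dist x (x * g) := by
    unfold rho at hbig ⊢
    rw [if_pos hreach] at hbig ⊢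
    rcases min_choice 1 (lam * ((cayD D hinv).dist x (x * g) : ℝ)) with h | h
    · rw [h] at hbig; norm_num at hbig
    · exact h
  have hgx : x⁻¹ * (x * g) = g := by group
  have hj : (cayD D hinv).dist x (x * g) + 1 ≤ m ∨ (cayD D hinv).dist x (x * g) = 0 := by
    by_cases h0 : (cayD D hinv).dist x (x * g) = 0
    · exact Or.inr h0
    left
    rw [hval, hlam, one_div, inv_mul_lt_iff₀ (by positivity)] at hbig
    have hKm : K ≤ m := min_le_left _ _
    have h2 : (2 * (cayD D hinv).dist x (x * g) : ℝ) < m + 1 := by linarith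
    have h3 : 2 * (cayD D hinv).dist x (x * g) < m + 1 := by exact_mod_cast h2
    omega
  rcases hj with hj | hj
  · obtain ⟨hl, hs⟩ := Y.close hDc hinv hQ x (x * g) hreach hj
    rw [hgx] at hl hs
    have h1 : ((range (Y.len g)).filter fun i => Y.st g i ∉ D) = ∅ := by
      rw [Finset.filter_eq_empty_iff]
      intro i hi
      rw [mem_range] at hi
      exact not_not.2 (hs i (by omega))
    have h2 : ((range (Y.len g)).filter fun i => Y.st g i ∈ D).card ≤
        (cayD D hinv).dist x (x * g) := by
      rw [← hl]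
      calc _ ≤ (range (Y.len g)).card := card_filter_le _ _
        _ = _ := card_range _
    rw [h1, card_empty, Nat.cast_zero, add_zero] at hc
    have h3 : lam * (((range (Y.len g)).filter fun i => Y.st g i ∈ D).card : ℝ) ≤
        rho (cayD D hinv) lam x (x * g) := by
      rw [hval]
      gcongr
    have h4 := (rho_metric (cayD D hinv) hlam0).nonneg x (x * g)
    nlinarith
  · have h1 : x = x * g := hreach.dist_eq_zero_iff.1 hj
    have h2 : g = 1 := by simpa using h1
    subst h2
    rw [Y.len_one, range_zero, Finset.sum_empty]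
    have h4 := (rho_metric (cayD D hinv) hlam0).nonneg x (x * 1)
    positivity

end Sys

end Pool.Agent.Q109.PS
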